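import Pool.Agent.H710.ECP.Final

/-!
# MP_418a80_an: strictly outer actions without ergodic cocycle perturbation

For every infinite group `G` (with the discrete topology it is locally compact and noncompact; take
`G = ℤ` for an amenable one) there are a II₁ factor `M` and a strictly outer action of `G` on `M`
such that no cocycle perturbation of the action is ergodic.

`M = L(Γ)`, `Γ` the group of the finitely supported permutations of `X = G ⊕ Set G`, and `G` acts
through conjugation with the permutations `g ⊕ 1` of `X`.  The coefficients of the unitaries of a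
cocycle involve at most `|G|` points of `X`; the transposition `z` of two other points of `Set G`
gives a unitary of `L(Γ)` which commutes with all `v_g` and is fixed by the action.  `M` is not
separable.
-/

set_option autoImplicit false

namespace Pool.Agent.Results.MP_418a80_an.DiscreteGroups

/-- the Hilbert space `ℓ²(G, H)` -/
abbrev L2 (G H : Type) [NormedAddCommGroup H] : Type := lp (fun _ : G => H) 2

/-- the bounded operators on `H` -/
abbrev Op (H : Type) [NormedAddCommGroup H] [InnerProductSpace ℂ H] : Type := H →L[ℂ] H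

/-- the bounded operators on `ℓ²(G, H)` -/
abbrev OpL2 (G H : Type) [NormedAddCommGroup H] [InnerProductSpace ℂ H] : Type :=
  L2 G H →L[ℂ] L2 G H

section defs
variable {H : Type} [NormedAddCommGroup H] [InnerProductSpace ℂ H] [CompleteSpace H]

/-- `z` is an element of the von Neumann algebra `M ⊆ B(H)` -/
def Mem (M : VonNeumannAlgebra H) (z : Op H) : Prop := z ∈ M

/-- the product (composition) of two operators -/
noncomputable def mul (x y : Op H) : Op H := x * y

/-- the adjoint of an operator -/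
noncomputable def adj (x : Op H) : Op H := star x

/-- `M ⊆ B(H)` is a II₁ factor: its centre is `ℂ 1`, it is infinite-dimensional, and there is a unit
vector `ξ` for which `x ↦ ⟪ξ, x ξ⟫` is a faithful (normal) tracial state on `M`. -/
def IsIIOneFactor (M : VonNeumannAlgebra H) : Prop :=
  (∀ z, Mem M z → (∀ x, Mem M x → mul z x = mul x z) → ∃ c : ℂ, ∀ ξ, z ξ = c • ξ) ∧
  (¬ ∃ (n : ℕ) (s : Fin n → Op H), ∀ x, Mem M x → ∃ c : Fin n → ℂ, ∀ ξ, x ξ = ∑ i, c i • s i ξ) ∧
  ∃ ξ : H, ‖ξ‖ = 1 ∧ (∀ x, Mem M x → x ξ = 0 → x = 0) ∧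
    ∀ x y, Mem M x → Mem M y → inner ℂ ξ (mul x y ξ) = inner ℂ ξ (mul y x ξ)

variable {G : Type} [Group G]

/-- `α` is an action of the (discrete) group `G` on `M` by `*`-automorphisms -/
def IsAction (M : VonNeumannAlgebra H) (α : G → Op H → Op H) : Prop :=
  (∀ g x, Mem M x → Mem M (α g x)) ∧
  (∀ g x y, Mem M x → Mem M y → α g (x + y) = α g x + α g y) ∧
  (∀ g (c : ℂ) x, Mem M x → α g (c • x) = c • α g x) ∧
  (∀ g x y, Mem M x → Mem M y → α g (mul x y) = mul (α g x) (α g y)) ∧
  (∀ g x, Mem M x → α g (adj x) = adj (α g x)) ∧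
  (∀ x, Mem M x → α 1 x = x) ∧
  (∀ g h x, Mem M x → α (g * h) x = α g (α h x))

/-- `T` is the operator `π(x)` on `ℓ²(G, H)`: `(π(x) ξ)(g) = α_{g⁻¹}(x) ξ(g)` -/
def IsAmp (α : G → Op H → Op H) (x : Op H) (T : OpL2 G H) : Prop :=
  ∀ (ξ : L2 G H) (g : G), T ξ g = α g⁻¹ x (ξ g)

/-- `T` is the translation `λ_h` on `ℓ²(G, H)`: `(λ_h ξ)(g) = ξ(h⁻¹ g)` -/
def IsTrans (h : G) (T : OpL2 G H) : Prop :=
  ∀ (ξ : L2 G H) (g : G), T ξ g = ξ (h⁻¹ * g)

/-- the operators `S` and `T` commute -/
def Comm (S T : OpL2 G H) : Prop := ∀ ξ, S (T ξ) = T (S ξ)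

/-- `T` belongs to the crossed product `M ⋊_α G`, the bicommutant of the `π(x)`, `x ∈ M`, and the
translations `λ_h` (a self-adjoint set) -/
def InCrossedProduct (M : VonNeumannAlgebra H) (α : G → Op H → Op H) (T : OpL2 G H) : Prop :=
  ∀ S : OpL2 G H, (∀ x R, Mem M x → IsAmp α x R → Comm S R) →
    (∀ (h : G) R, IsTrans h R → Comm S R) → Comm S T

/-- strict outerness: `π(M)' ∩ (M ⋊_α G) = ℂ 1` -/
def StrictlyOuter (M : VonNeumannAlgebra H) (α : G → Op H → Op H) : Prop :=
  ∀ T : OpL2 G H, InCrossedProduct M α T → (∀ x S, Mem M x → IsAmp α x S → Comm S T) →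
    ∃ c : ℂ, ∀ ξ, T ξ = c • ξ

/-- `v` is a `1`-cocycle for `α`: unitaries `v_g` of `M` with `v_{gh} = v_g α_g(v_h)` -/
def IsCocycle (M : VonNeumannAlgebra H) (α : G → Op H → Op H) (v : G → Op H) : Prop :=
  (∀ g, Mem M (v g) ∧ mul (adj (v g)) (v g) = 1 ∧ mul (v g) (adj (v g)) = 1) ∧
    ∀ g h, v (g * h) = mul (v g) (α g (v h))

/-- ergodicity of the cocycle perturbation `Ad v ∘ α`: its fixed point algebra is `ℂ 1` -/
def ErgodicPerturbation (M : VonNeumannAlgebra H) (α : G → Op H → Op H) (v : G → Op H) :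
    Prop :=
  ∀ x, Mem M x → (∀ g, mul (mul (v g) (α g x)) (adj (v g)) = x) → ∃ c : ℂ, ∀ ξ, x ξ = c • ξ

end defs

/-- For every infinite group `G` there are a II₁ factor `M` and a strictly outer action `α` of `G`
on `M` such that for no 1-cocycle `v` for `α` the action `Ad v ∘ α` is ergodic. -/
theorem result (G : Type) [Group G] [Infinite G] :
    ∃ (H : Type) (_ : NormedAddCommGroup H) (_ : InnerProductSpace ℂ H) (_ : CompleteSpace H)
      (M : VonNeumannAlgebra H) (α : G → Op H → Op H),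
      IsIIOneFactor M ∧ IsAction M α ∧ StrictlyOuter M α ∧
        ¬ ∃ v : G → Op H, IsCocycle M α v ∧ ErgodicPerturbation M α v := by
  classical
  obtain ⟨H, i1, i2, i3, M, α, h1, h2, h3⟩ := Pool.Agent.H710.ECP.main G
  set β : G → Op H → Op H := fun g x => if hx : x ∈ M then ((α g ⟨x, hx⟩).1 : H →L[ℂ] H) else 0
    with hβdef
  have hβ : ∀ (g : G) (x : Op H) (hx : x ∈ M), β g x = ((α g ⟨x, hx⟩).1 : H →L[ℂ] H) :=
    fun g x hx => dif_pos hx
  have hβm : ∀ (g : G) (x : Op H), x ∈ M → β g x ∈ M := by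
    intro g x hx
    rw [hβ g x hx]
    exact (α g ⟨x, hx⟩).2
  refine ⟨H, i1, i2, i3, M, β, ?_, ?_, ?_, ?_⟩
  · obtain ⟨a1, a2, ξ, a3, a4, a5⟩ := h1
    refine ⟨?_, ?_, ξ, a3, fun x hx => a4 x hx, fun x y hx hy => a5 x hx y hy⟩
    · intro z hz hc
      obtain ⟨c, rfl⟩ := a1 z hz (fun x hx => hc x hx)
      exact ⟨c, fun ξ => rfl⟩
    · rintro ⟨n, s, hs⟩
      apply a2
      refine ⟨Finset.univ.image s, fun x hx => ?_⟩
      obtain ⟨c, hc⟩ := hs x hx
      have hx' : x = ∑ i, c i • s i := by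
        apply ContinuousLinearMap.ext
        intro η
        rw [hc η, ContinuousLinearMap.sum_apply]
        rfl
      rw [hx']
      apply Submodule.sum_mem
      intro i _
      apply Submodule.smul_mem
      apply Submodule.subset_span
      simp
  · refine ⟨fun g x hx => hβm g x hx, ?_, ?_, ?_, ?_, ?_, ?_⟩
    · intro g x y hx hy
      have hxy : x + y ∈ M := M.add_mem hx hy
      rw [hβ g _ hxy, hβ g x hx, hβ g y hy]
      have := map_add (α g) ⟨x, hx⟩ ⟨y, hy⟩
      exact congrArg Subtype.val this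
    · intro g c x hx
      have hcx : c • x ∈ M := M.toStarSubalgebra.smul_mem hx c
      rw [hβ g _ hcx, hβ g x hx]
      have := map_smul (α g) c ⟨x, hx⟩
      exact congrArg Subtype.val this
    · intro g x y hx hy
      have hxy : x * y ∈ M := M.mul_mem hx hy
      show β g (x * y) = β g x * β g y
      rw [hβ g _ hxy, hβ g x hx, hβ g y hy]
      have := map_mul (α g) ⟨x, hx⟩ ⟨y, hy⟩
      exact congrArg Subtype.val this
    · intro g x hx
      have hx' : star x ∈ M := star_mem hx
      show β g (star x) = star (β g x)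
      rw [hβ g _ hx', hβ g x hx]
      have := map_star (α g) ⟨x, hx⟩
      exact congrArg Subtype.val this
    · intro x hx
      rw [hβ 1 x hx, map_one]
      rfl
    · intro g h x hx
      rw [hβ (g * h) x hx, hβ g _ (hβm h x hx), map_mul]
      have e : (⟨β h x, hβm h x hx⟩ : M.toStarSubalgebra) = α h ⟨x, hx⟩ :=
        Subtype.ext (hβ h x hx)
      show ((α g (α h ⟨x, hx⟩)).1 : H →L[ℂ] H) = (α g ⟨β h x, hβm h x hx⟩).1
      rw [e]
  · intro T hT hc
    have amp : ∀ (x : M.toStarSubalgebra) (S : OpL2 G H),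
        Pool.Agent.H710.ECP.IsAmp M α x S ↔ IsAmp β x.1 S := by
      intro x S
      constructor
      · intro h ξ g
        rw [h ξ g, hβ g⁻¹ x.1 x.2]
      · intro h ξ g
        rw [h ξ g, hβ g⁻¹ x.1 x.2]
    obtain ⟨c, rfl⟩ := h2 T (by
      rw [Pool.Agent.H710.ECP.CrossedProduct, Set.mem_centralizer_iff]
      intro S hS
      rw [Set.mem_centralizer_iff] at hS
      apply ContinuousLinearMap.ext
      refine hT S ?_ ?_
      · intro x R hx hR ξ
        have := hS R (Or.inl ⟨⟨x, hx⟩, (amp ⟨x, hx⟩ R).2 hR⟩)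
        exact (congrArg (fun Q : OpL2 G H => Q ξ) this).symm
      · intro h R hR ξ
        have := hS R (Or.inr ⟨h, hR⟩)
        exact (congrArg (fun Q : OpL2 G H => Q ξ) this).symm) (by
      intro x S hS
      apply ContinuousLinearMap.ext
      exact hc x.1 S x.2 ((amp x S).1 hS))
    exact ⟨c, fun ξ => rfl⟩
  · rintro ⟨v, hv, he⟩
    refine h3 (fun g => ⟨v g, (hv.1 g).1⟩) ⟨?_, ?_⟩ ?_
    · intro g
      exact ⟨Subtype.ext (hv.1 g).2.1, Subtype.ext (hv.1 g).2.2⟩
    · intro g h
      apply Subtype.ext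
      have := hv.2 g h
      rw [hβ g _ (hv.1 h).1] at this
      exact this
    · intro x hx
      obtain ⟨c, hc⟩ := he x.1 x.2 (by
        intro g
        rw [hβ g _ x.2]
        exact congrArg Subtype.val (hx g))
      refine ⟨c, Subtype.ext ?_⟩
      apply ContinuousLinearMap.ext
      exact hc

end Pool.Agent.Results.MP_418a80_an.DiscreteGroups
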